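import Pool.Agent.H923R2.FZ.JS

/-! Task GNSB: a reduced free product in the sense of `RFP` is one in the sense of `IsRFP`. -/

set_option autoImplicit false

open scoped ComplexConjugate ComplexOrder Kronecker Matrix.Norms.L2Operator

noncomputable section

namespace Pool.Agent.H923R2.FZ.T_GNSB

open Pool.Agent.H923R2 Pool.Agent.H923R2.FP Pool.Agent.H923R2.FZ

theorem t_GNSB : S_GNSB := by
  intro J D _ t A _ φ e h
  refine ⟨h.fts.one, ?_, h.tr, ?_, h.gen, ?_⟩
  · intro x
    rw [Complex.nonneg_iff]
    refine ⟨h.fts.nonneg x, ?_⟩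
    have h1 := h.fts.str (star x * x)
    rw [star_mul, star_star] at h1
    exact (Complex.conj_eq_iff_im.mp h1.symm).symm
  · intro w hw hc h0
    have h1 := h.free (w.map fun z => (z.1, e z.1 z.2)) (by simpa using hw) (by
      intro z hz
      obtain ⟨y, hy, rfl⟩ := List.mem_map.mp hz
      refine ⟨⟨y.2, rfl⟩, ?_⟩
      simp only
      rw [h.tr]
      exact h0 y hy) (by
      rw [List.isChain_map]
      exact hc)
    rw [List.map_map] at h1
    exact h1
  · intro a ha
    have h1 := ha 1
    rw [mul_one] at h1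
    exact h.fts.faith a (by rw [h1, Complex.zero_re])

end Pool.Agent.H923R2.FZ.T_GNSB
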