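import Pool.Agent.H923R2.FZ.Stubs2
import Pool.Agent.H923R2.FP.Stubs

/-! Task MAINZ: assembly. -/

set_option autoImplicit false

open scoped ComplexConjugate

noncomputable section

namespace Pool.Agent.H923R2.FZ.T_MAINZ

open Pool.Agent.H923R2 Pool.Agent.H923R2.FP Pool.Agent.H923R2.FZ

/-- the Hilbert hotel, iterated -/
theorem hot_iter (hHOT : S_HOT) (hZERO : S_ZERO) (Z : Type) [CStarAlgebra Z] (t : Z → ℂ)
    (hCJ : CJ Z t) (B : Type) [CStarAlgebra B] [TopologicalSpace.SeparableSpace B]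
    (τ : B →ₗ[ℂ] ℂ) : ∀ (k : ℕ) (e : Fin k → (Z →⋆ₐ[ℂ] B))
    (f : ℕ → (C(unitInterval, ℂ) →⋆ₐ[ℂ] B)), RFPw (J := Fin k) (fun _ => Z) (fun _ => t) τ e f →
    ∃ f' : ℕ → (C(unitInterval, ℂ) →⋆ₐ[ℂ] B),
      RFP (J := ℕ) (fun _ => C(unitInterval, ℂ)) (fun _ => leb) τ f' := by
  intro k
  induction k with
  | zero =>
    intro e f h
    exact ⟨f, hZERO Z t B τ e f h⟩
  | succ k ih =>
    intro e f h
    obtain ⟨f', h'⟩ := hHOT Z t hCJ k B τ e f h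
    exact ih _ f' h'

theorem t_MAINZ (hCJZ : S_CJZ) (hHOT : S_HOT) (hABSI : S_ABSI) (hSEPW : S_SEPW) (hEXW : S_EXW)
    (hZERO : S_ZERO) (hSPL : S_SPL) (hUNIQ : FP.S_UNIQ) : S_MAINZ := by
  intro Z _ _ t ht hRWA c hc W _ τW g hW
  have hCJ : CJ Z t := hCJZ Z t hRWA
  constructor
  · intro k hk A _ τ e hA
    obtain ⟨B, iB, τB, eB, fB, hB⟩ := hEXW Z t ht k
    have : TopologicalSpace.SeparableSpace B :=
      hSEPW (Fin k) (fun _ => Z) (fun _ => t) B τB eB fB hB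
    obtain ⟨e', he'⟩ := hABSI (Fin k) (fun _ => Z) (fun _ => t) ⟨0, by omega⟩ ⟨1, by omega⟩
      (by simp) c c hc hc B τB eB fB hB
    obtain ⟨Φ, -, -⟩ := hUNIQ (Fin k) (fun _ => Z) (fun _ => t) A B τ τB e e' hA he'
    obtain ⟨f', hf'⟩ := hot_iter hHOT hZERO Z t hCJ B τB k eB fB hB
    obtain ⟨Ψ, -, -⟩ := hUNIQ ℕ (fun _ => C(unitInterval, ℂ)) (fun _ => leb) B W τB τW f' g hf' hW
    exact ⟨Φ.trans Ψ⟩
  · intro l hl A _ τ e hA
    have h1 := hSPL W τW g hW l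
    have : TopologicalSpace.SeparableSpace W :=
      hSEPW (Fin l) (fun _ => C(unitInterval, ℂ)) (fun _ => leb) W τW _ _ h1
    obtain ⟨e', he'⟩ := hABSI (Fin l) (fun _ => C(unitInterval, ℂ)) (fun _ => leb)
      ⟨0, by omega⟩ ⟨1, by omega⟩ (by simp) (StarAlgHom.id ℂ _) (StarAlgHom.id ℂ _)
      (fun x => rfl) (fun x => rfl) W τW _ _ h1
    obtain ⟨Φ, -, -⟩ := hUNIQ (Fin l) (fun _ => C(unitInterval, ℂ)) (fun _ => leb) A W τ τW e e'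
      hA he'
    exact ⟨Φ⟩

end Pool.Agent.H923R2.FZ.T_MAINZ
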